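import Pool.Agent.H83.X.T3
import Pool.Agent.H14.MCL.LDB

/-!
Theorem X, row XLI: logarithmic means of functions with finitely many values.
-/

set_option autoImplicit false

open MeasureTheory ProbabilityTheory Filter Topology Finset
open scoped Nat ENNReal

namespace Pool.Agent.H48.X

open Pool.Agent.H83.X
open Pool.Agent.H28.MCL (ldB Aw)
open Pool.Agent.H28.LF (ptS Xi lX)
open Pool.Agent.H14.MCL (wsum tendsto_ldB)

/-- logarithmic means of finite combinations of indicators -/
theorem ldI_sum {U : Ultrafilter ℕ} {x y : ℕ → ℕ} (h : Aw U x y) (V : Finset ℝ) (F : ℕ → ℝ)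
    (hF : ∀ n, F n ∈ V) : ldI U x y F = ∑ v ∈ V, v * ldB U x y {n | F n = v} := by
  classical
  unfold ldI
  apply Tendsto.limUnder_eq
  have h1 : Tendsto (fun j => ∑ v ∈ V, v * (wsum {n | F n = v} (x j) (y j) /
      Real.log ((y j : ℝ) / x j))) (U : Filter ℕ) (𝓝 (∑ v ∈ V, v * ldB U x y {n | F n = v})) :=
    tendsto_finsetSum _ fun v _ => (tendsto_ldB h _).const_mul v
  refine h1.congr fun j => ?_
  have h2 : ∑ n ∈ Icc (x j) (y j), F n / n = ∑ v ∈ V, v * wsum {n | F n = v} (x j) (y j) := by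
    rw [← Finset.sum_fiberwise_of_maps_to (s := Icc (x j) (y j)) (t := V) (g := F) fun n _ => hF n]
    refine Finset.sum_congr rfl fun v _ => ?_
    unfold wsum
    rw [Finset.mul_sum]
    refine Finset.sum_congr ?_ fun n hn => ?_
    · ext n; simp
    · rw [(Finset.mem_filter.mp hn).2]
      ring
  rw [h2, Finset.sum_div]
  refine Finset.sum_congr rfl fun v _ => ?_
  ring

theorem pf_XLI : T_XLI := by
  classical
  intro U x y τ PX hA hP hC G hG hfin
  set V : Finset ℝ := hfin.toFinset with hV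
  have hmem : ∀ ξ, G ξ ∈ V := fun ξ => hfin.mem_toFinset.mpr ⟨ξ, rfl⟩
  have hclopen : ∀ v : ℝ, IsClopen (G ⁻¹' {v}) := by
    intro v
    refine ⟨isClosed_singleton.preimage hG, ?_⟩
    have : G ⁻¹' {v} = (G ⁻¹' ((V.erase v : Finset ℝ) : Set ℝ))ᶜ := by
      ext ξ
      simp only [Set.mem_preimage, Set.mem_singleton_iff, Set.mem_compl_iff, Finset.mem_coe,
        Finset.mem_erase, not_and]
      constructor
      · intro h1 h2
        exact absurd h1 h2
      · intro h1
        by_contra h2
        exact h1 h2 (hmem ξ)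
    rw [this]
    exact ((Finset.finite_toSet _).isClosed.preimage hG).isOpen_compl
  rw [ldI_sum hA V _ fun n => hmem _]
  have h1 : ∀ v ∈ V, v * ldB U x y {n | G (ptS (lX τ) n) = v} = v * PX.real (G ⁻¹' {v}) := by
    intro v _
    rw [hC _ (hclopen v)]
    rfl
  rw [Finset.sum_congr rfl h1]
  have h2 : ∀ ξ, G ξ = ∑ v ∈ V, (G ⁻¹' {v}).indicator (fun _ => v) ξ := by
    intro ξ
    rw [Finset.sum_eq_single (G ξ)]
    · rw [Set.indicator_of_mem (by simp)]
    · intro v _ hv
      rw [Set.indicator_of_notMem]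
      intro h
      exact hv (Set.mem_preimage.mp h).symm
    · intro h
      exact absurd (hmem ξ) h
  have h3 : ∫ ξ, G ξ ∂PX = ∫ ξ, ∑ v ∈ V, (G ⁻¹' {v}).indicator (fun _ => v) ξ ∂PX :=
    integral_congr_ae (Eventually.of_forall h2)
  have hms : ∀ v, MeasurableSet (G ⁻¹' {v}) := fun v => (hclopen v).2.measurableSet
  rw [h3, integral_finsetSum]
  · refine Finset.sum_congr rfl fun v _ => ?_
    rw [integral_indicator (hms v), setIntegral_const, smul_eq_mul, mul_comm]
  · intro v _
    exact (integrable_const v).indicator (hms v)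

end Pool.Agent.H48.X
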