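import Pool.Agent.H83.X.T1

/-!
Theorem X, row BAS: a rational basis for finitely many frequencies.
-/

set_option autoImplicit false

open MeasureTheory ProbabilityTheory Filter Topology Finset
open scoped Nat ENNReal

namespace Pool.Agent.H48.X

open Pool.Agent.H83.X

theorem pf_BAS : T_BAS := by
  classical
  intro S
  have h1 : LinearIndepOn ℚ (_root_.id : ℝ → ℝ) ({1} : Set ℝ) := by
    rw [linearIndepOn_singleton_iff]
    exact one_ne_zero
  obtain ⟨b, hb, h1b, hsp, hli⟩ := exists_linearIndepOn_extension h1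
    (t := ((insert 1 S : Finset ℝ) : Set ℝ)) (by simp)
  have hbf : b.Finite := (Finset.finite_toSet _).subset hb
  set B : Finset ℝ := hbf.toFinset.erase 1 with hB
  have h1mem : (1 : ℝ) ∈ b := h1b rfl
  let e := B.equivFin
  let α : Fin B.card → ℝ := fun i => (e.symm i).1
  have hαmem : ∀ i, α i ∈ B := fun i => (e.symm i).2
  have hBb : ∀ x ∈ B, x ∈ b := fun x hx => hbf.mem_toFinset.mp (Finset.mem_of_mem_erase hx)
  -- coordinates
  have hc : ∀ β ∈ S, ∃ f : ℝ → ℚ, ∑ x ∈ hbf.toFinset, f x • x = β := by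
    intro β hβ
    have : β ∈ Submodule.span ℚ b := by
      have := hsp ⟨β, by simp [hβ], rfl⟩
      simpa using this
    rw [← hbf.coe_toFinset] at this
    obtain ⟨f, -, hf⟩ := Submodule.mem_span_finset.mp this
    exact ⟨f, hf⟩
  choose! f hf using hc
  let Q : ℕ := ∏ β ∈ S, ∏ x ∈ hbf.toFinset, (f β x).den
  have hQ : 0 < Q := Finset.prod_pos fun β _ => Finset.prod_pos fun x _ => (f β x).den_pos
  have hdvd : ∀ β ∈ S, ∀ x ∈ hbf.toFinset, (f β x).den ∣ Q := fun β hβ x hx =>
    (Finset.dvd_prod_of_mem (fun x => (f β x).den) hx).trans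
      (Finset.dvd_prod_of_mem (fun β => ∏ x ∈ hbf.toFinset, (f β x).den) hβ)
  let z : ℝ → ℝ → ℤ := fun β x => (f β x).num * ((Q / (f β x).den : ℕ) : ℤ)
  have hz : ∀ β ∈ S, ∀ x ∈ hbf.toFinset, (Q : ℝ) * (f β x : ℝ) = z β x := by
    intro β hβ x hx
    obtain ⟨c, hc⟩ := hdvd β hβ x hx
    have hd : ((f β x).den : ℝ) ≠ 0 := by exact_mod_cast (f β x).den_pos.ne'
    have e1 : Q / (f β x).den = c := by
      rw [hc]; exact Nat.mul_div_cancel_left c (f β x).den_pos
    have e2 : (f β x : ℝ) = (f β x).num / (f β x).den := by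
      exact_mod_cast (Rat.num_div_den (f β x)).symm
    show (Q : ℝ) * (f β x : ℝ) = (((f β x).num * ((Q / (f β x).den : ℕ) : ℤ) : ℤ) : ℝ)
    rw [e1, e2]
    push_cast
    rw [hc]
    push_cast
    field_simp
  refine ⟨B.card, α, Q, fun β i => z β (α i), fun β => z β 1, ?_, hQ, fun β hβ => ?_⟩
  · intro k l hkl
    -- the relation
    have hli' := linearIndepOn_iff'.mp hli hbf.toFinset
      (fun x => if h : x ∈ B then (k (e ⟨x, h⟩) : ℚ) else -(l : ℚ)) (by simp) (by
        have hin : (1 : ℝ) ∈ hbf.toFinset := hbf.mem_toFinset.mpr h1mem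
        rw [← Finset.add_sum_erase _ _ hin]
        have e1 : (1 : ℝ) ∉ B := Finset.notMem_erase _ _
        have e2 : ∑ x ∈ hbf.toFinset.erase 1, (if h : x ∈ B then (k (e ⟨x, h⟩) : ℚ) else -(l : ℚ)) •
            (_root_.id x : ℝ) = ∑ i, (k i : ℝ) * α i := by
          rw [← hB, ← Finset.sum_coe_sort]
          rw [← e.symm.sum_comp]
          refine Finset.sum_congr rfl fun i _ => ?_
          have : ((e.symm i : B) : ℝ) ∈ B := (e.symm i).2
          rw [dif_pos this]
          rw [Rat.smul_def]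
          have e3 : (⟨((e.symm i : B) : ℝ), this⟩ : B) = e.symm i := Subtype.ext rfl
          rw [e3, Equiv.apply_symm_apply]
          simp [α]
        rw [e2, hkl, dif_neg e1, Rat.smul_def]
        simp)
    funext i
    have := hli' (α i) (hbf.mem_toFinset.mpr (hBb _ (hαmem i)))
    rw [dif_pos (hαmem i)] at this
    have e3 : (⟨α i, hαmem i⟩ : B) = e.symm i := Subtype.ext rfl
    rw [e3, Equiv.apply_symm_apply] at this
    exact_mod_cast this
  · have hin : (1 : ℝ) ∈ hbf.toFinset := hbf.mem_toFinset.mpr h1mem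
    conv_lhs => rw [← hf β hβ]
    rw [← Finset.add_sum_erase _ _ hin, mul_add, Rat.smul_def, mul_one, hz β hβ 1 hin]
    congr 1
    rw [← hB, Finset.mul_sum, ← Finset.sum_coe_sort, ← e.symm.sum_comp]
    refine Finset.sum_congr rfl fun i _ => ?_
    rw [Rat.smul_def, ← mul_assoc, hz β hβ _ (hbf.mem_toFinset.mpr (hBb _ (e.symm i).2))]

end Pool.Agent.H48.X
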