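import Pool.Agent.H48.X.EIG

/-!
Theorem X, row EGR: no rational eigenvalues.
-/

set_option autoImplicit false

open MeasureTheory ProbabilityTheory Filter Topology Finset
open scoped Nat ENNReal

namespace Pool.Agent.H48.X

open Pool.Agent.H83.X
open Pool.Agent.H24.AG (ee)
open Pool.Agent.H67.AG (Inv)

theorem ee_conj (x : ℝ) : (starRingEnd ℂ) (ee x) = ee (-x) := by
  unfold ee
  rw [← Complex.exp_conj]
  congr 1
  simp only [map_mul, Complex.conj_I, Complex.conj_ofReal, map_ofNat]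
  push_cast
  ring

/-- almost invariant functions are orthogonal to `f` -/
theorem orth_inv {Ω : Type} [MeasurableSpace Ω] (P : Measure Ω) [IsProbabilityMeasure P]
    (T : Ω ≃ᵐ Ω) (f u : Ω → ℝ) (hT : MeasurePreserving T P P) (hf : Measurable f)
    (hfb : ∀ ω, |f ω| ≤ 2) (hu : Measurable u) (hub : ∀ ω, |u ω| ≤ 2) (W : ℕ)
    (hc : P[f | Inv T W] =ᵐ[P] 0) (hi : ∀ᵐ ω ∂P, u (T^[W] ω) = u ω) :
    ∫ ω, f ω * u ω ∂P = 0 := by
  set S : Ω → Ω := T^[W] with hS
  have hSm : MeasurePreserving S P P := hT.iterate W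
  set u' : Ω → ℝ := fun ω => limsup (fun n : ℕ => u (S^[n] ω)) atTop with hu'
  have hm : Measurable u' :=
    Measurable.limsup fun n => hu.comp ((hSm.measurable.iterate n))
  have hinv : ∀ ω, u' (S ω) = u' ω := by
    intro ω
    have h1 : (fun n : ℕ => u (S^[n] (S ω))) = fun n => (fun m : ℕ => u (S^[m] ω)) (n + 1) := by
      funext n
      show u (S^[n] (S ω)) = u (S^[n + 1] ω)
      rw [Function.iterate_succ_apply]
    show limsup (fun n : ℕ => u (S^[n] (S ω))) atTop = limsup (fun n : ℕ => u (S^[n] ω)) atTop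
    rw [h1]
    exact limsup_nat_add (fun m : ℕ => u (S^[m] ω)) 1
  have hmI : Measurable[Inv T W] u' := by
    have := (MeasurableSpace.measurable_invariants_dom (f := S) (g := u')).mpr
      ⟨hm, fun s _ => by
        ext ω
        show u' (S ω) ∈ s ↔ u' ω ∈ s
        rw [hinv]⟩
    exact this
  have hae : u' =ᵐ[P] u := by
    have h1 : ∀ᵐ ω ∂P, ∀ n : ℕ, u (S^[n] ω) = u ω := by
      rw [ae_all_iff]
      intro n
      induction n with
      | zero => exact Eventually.of_forall fun ω => rfl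
      | succ n ih =>
        filter_upwards [ih, (hSm.iterate n).quasiMeasurePreserving.ae hi] with ω e1 e2
        rw [Function.iterate_succ_apply', e2, e1]
    filter_upwards [h1] with ω e
    show limsup (fun n : ℕ => u (S^[n] ω)) atTop = u ω
    rw [show (fun n : ℕ => u (S^[n] ω)) = fun _ => u ω from funext e]
    exact limsup_const _
  have hfi : Integrable f P :=
    Integrable.of_bound hf.aestronglyMeasurable 2 (Eventually.of_forall hfb)
  have hfu : Integrable (fun ω => f ω * u ω) P := by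
    refine Integrable.of_bound (hf.mul hu).aestronglyMeasurable 4 (Eventually.of_forall fun ω => ?_)
    rw [norm_mul]
    have h1 := hfb ω
    have h2 := hub ω
    have h3 : ‖f ω‖ ≤ 2 := h1
    have h4 : ‖u ω‖ ≤ 2 := h2
    nlinarith [norm_nonneg (f ω), norm_nonneg (u ω)]
  have hfu' : Integrable (f * u') P := by
    refine hfu.congr ?_
    filter_upwards [hae] with ω e
    show f ω * u ω = f ω * u' ω
    rw [e]
  have h5 : ∫ ω, f ω * u ω ∂P = ∫ ω, (f * u') ω ∂P := by
    refine integral_congr_ae ?_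
    filter_upwards [hae] with ω e
    show f ω * u ω = f ω * u' ω
    rw [e]
  have hle : Inv T W ≤ ‹MeasurableSpace Ω› := MeasurableSpace.invariants_le _
  have h6 := condExp_mul_of_stronglyMeasurable_right (m := Inv T W) (μ := P)
    (hmI.stronglyMeasurable) hfu' hfi
  rw [h5, ← integral_condExp hle (f := f * u')]
  have h7 : (P[f * u' | Inv T W]) =ᵐ[P] 0 := by
    filter_upwards [h6, hc] with ω e1 e2
    rw [e1, Pi.mul_apply, e2]
    simp
  rw [integral_congr_ae h7]
  simp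

theorem pf_EGR : T_EGR := by
  intro Ω _ P _ T f θ g hT hf hfb hc hθ hE
  -- rational eigenvalue
  have hθ' : ∃ r : ℚ, (r : ℝ) = θ := by
    unfold Irrational at hθ
    push Not at hθ
    exact hθ
  obtain ⟨r, rfl⟩ := hθ'
  have hgn : ∀ᵐ ω ∂P, ∀ n : ℕ, g (T^[n] ω) = ee (n * (r : ℝ)) * g ω := by
    rw [ae_all_iff]
    intro n
    induction n with
    | zero =>
      refine Eventually.of_forall fun ω => ?_
      rw [Nat.cast_zero, zero_mul, ee_zero, one_mul]
      rfl
    | succ n ih =>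
      filter_upwards [ih, (hT.iterate n).quasiMeasurePreserving.ae hE.eq] with ω e1 e2
      rw [Function.iterate_succ_apply', e2, e1, ← mul_assoc, ← ee_add]
      congr 2
      push_cast; ring
  have hW : ∀ᵐ ω ∂P, g (T^[r.den] ω) = g ω := by
    filter_upwards [hgn] with ω e
    rw [e r.den]
    have h1 : ((r.den : ℕ) : ℝ) * (r : ℝ) = ((r.num : ℤ) : ℝ) := by
      have := Rat.den_mul_eq_num r
      exact_mod_cast this
    rw [h1]
    have h2 : ee ((r.num : ℤ) : ℝ) = 1 := by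
      unfold ee
      rw [show (2 * (Real.pi : ℂ) * Complex.I * (((r.num : ℤ) : ℝ) : ℂ)) =
        ((r.num : ℤ) : ℂ) * (2 * Real.pi * Complex.I) by push_cast; ring]
      exact Complex.exp_int_mul_two_pi_mul_I _
    rw [h2, one_mul]
  have hre : ∫ ω, f ω * (g ω).re ∂P = 0 := by
    refine orth_inv P T f (fun ω => (g ω).re) hT hf hfb (Complex.measurable_re.comp hE.meas)
      (fun ω => (Complex.abs_re_le_norm _).trans (hE.bd ω)) r.den (hc r.den r.den_pos) ?_
    filter_upwards [hW] with ω e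
    rw [e]
  have him : ∫ ω, f ω * (g ω).im ∂P = 0 := by
    refine orth_inv P T f (fun ω => (g ω).im) hT hf hfb (Complex.measurable_im.comp hE.meas)
      (fun ω => (Complex.abs_im_le_norm _).trans (hE.bd ω)) r.den (hc r.den r.den_pos) ?_
    filter_upwards [hW] with ω e
    rw [e]
  have hgm := hE.meas
  have hcm : Measurable fun ω => (starRingEnd ℂ) (g ω) := Complex.continuous_conj.measurable.comp hgm
  have hfm : Measurable fun ω => (f ω : ℂ) := Complex.measurable_ofReal.comp hf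
  have hfn : ∀ ω, ‖(f ω : ℂ)‖ ≤ 2 := fun ω => by
    rw [Complex.norm_real]; exact hfb ω
  have hcn : ∀ ω, ‖(starRingEnd ℂ) (g ω)‖ ≤ 2 := fun ω => by
    rw [RCLike.norm_conj]; exact hE.bd ω
  have bdI : ∀ (h : Ω → ℂ) (C : ℝ), Measurable h → (∀ ω, ‖h ω‖ ≤ C) → Integrable h P :=
    fun h C h1 h2 => Integrable.of_bound h1.aestronglyMeasurable C (Eventually.of_forall h2)
  have hfg : ∫ ω, (starRingEnd ℂ) (g ω) * (f ω : ℂ) ∂P = 0 := by
    have hint : Integrable (fun ω => (starRingEnd ℂ) (g ω) * (f ω : ℂ)) P := by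
      refine bdI _ 4 (hcm.mul hfm) fun ω => ?_
      rw [norm_mul]
      nlinarith [hcn ω, hfn ω, norm_nonneg ((starRingEnd ℂ) (g ω)), norm_nonneg ((f ω : ℝ) : ℂ)]
    apply Complex.ext
    · have h1 : (∫ ω, (starRingEnd ℂ) (g ω) * (f ω : ℂ) ∂P).re =
          ∫ ω, ((starRingEnd ℂ) (g ω) * (f ω : ℂ)).re ∂P := by
        exact (integral_re hint).symm
      rw [h1, Complex.zero_re, ← hre]
      refine integral_congr_ae (Eventually.of_forall fun ω => ?_)
      simp [mul_comm]
    · have h1 : (∫ ω, (starRingEnd ℂ) (g ω) * (f ω : ℂ) ∂P).im =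
          ∫ ω, ((starRingEnd ℂ) (g ω) * (f ω : ℂ)).im ∂P := by
        exact (integral_im hint).symm
      rw [h1, Complex.zero_im, ← neg_zero, ← him, ← integral_neg]
      refine integral_congr_ae (Eventually.of_forall fun ω => ?_)
      simp [mul_comm]
  set A : ℕ → Ω → ℂ := fun N ω => (∑ n ∈ range N, ee (-(n * (r : ℝ))) * (f (T^[n] ω) : ℂ)) / N
    with hA
  have hAm : ∀ N, Measurable (A N) := by
    intro N
    refine Measurable.div_const ?_ _
    refine Finset.measurable_sum _ fun n _ => ?_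
    exact (hfm.comp (hT.iterate n).measurable).const_mul _
  have hAb : ∀ N ω, ‖A N ω‖ ≤ 2 := by
    intro N ω
    show ‖(∑ n ∈ range N, ee (-(n * (r : ℝ))) * (f (T^[n] ω) : ℂ)) / N‖ ≤ 2
    rw [norm_div, Complex.norm_natCast]
    rcases Nat.eq_zero_or_pos N with h | h
    · rw [h]; simp
    · rw [div_le_iff₀ (by exact_mod_cast h)]
      refine (norm_sum_le _ _).trans ?_
      calc ∑ n ∈ range N, ‖ee (-(n * (r : ℝ))) * (f (T^[n] ω) : ℂ)‖ ≤ ∑ _n ∈ range N, (2 : ℝ) := by
            refine Finset.sum_le_sum fun n _ => ?_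
            rw [norm_mul, ee_norm1, one_mul]
            exact hfn _
        _ = 2 * N := by rw [Finset.sum_const, card_range, nsmul_eq_mul]; ring
  -- the averages are orthogonal to `g`
  have hAg : ∀ N, ∫ ω, (starRingEnd ℂ) (g ω) * A N ω ∂P = 0 := by
    intro N
    have h1 : ∀ n : ℕ, ∫ ω, (starRingEnd ℂ) (g ω) * (ee (-(n * (r : ℝ))) * (f (T^[n] ω) : ℂ)) ∂P = 0 := by
      intro n
      have h2 : ∫ ω, (starRingEnd ℂ) (g ω) * (ee (-(n * (r : ℝ))) * (f (T^[n] ω) : ℂ)) ∂P =
          ∫ ω, (fun ω' => (starRingEnd ℂ) (g ω') * (f ω' : ℂ)) (T^[n] ω) ∂P := by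
        refine integral_congr_ae ?_
        filter_upwards [hgn] with ω e
        show _ = (starRingEnd ℂ) (g (T^[n] ω)) * (f (T^[n] ω) : ℂ)
        rw [e n, map_mul, ee_conj]
        ring
      rw [h2]
      have h3 := integral_map (μ := P) (hT.iterate n).measurable.aemeasurable
        (f := fun ω' => (starRingEnd ℂ) (g ω') * (f ω' : ℂ)) (hcm.mul hfm).aestronglyMeasurable
      rw [(hT.iterate n).map_eq] at h3
      rw [← h3]
      exact hfg
    have h4 : ∀ ω, (starRingEnd ℂ) (g ω) * A N ω =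
        (∑ n ∈ range N, (starRingEnd ℂ) (g ω) * (ee (-(n * (r : ℝ))) * (f (T^[n] ω) : ℂ))) / N := by
      intro ω
      show (starRingEnd ℂ) (g ω) * ((∑ n ∈ range N, ee (-(n * (r : ℝ))) * (f (T^[n] ω) : ℂ)) / N) = _
      rw [← Finset.mul_sum, mul_div_assoc]
    rw [integral_congr_ae (Eventually.of_forall h4), integral_div, integral_finsetSum]
    · rw [Finset.sum_congr rfl fun n _ => h1 n]
      simp
    · intro n _
      refine bdI _ 4 (hcm.mul ((hfm.comp (hT.iterate n).measurable).const_mul _)) fun ω => ?_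
      rw [norm_mul, norm_mul, ee_norm1, one_mul]
      nlinarith [hcn ω, hfn (T^[n] ω), norm_nonneg ((starRingEnd ℂ) (g ω)),
        norm_nonneg ((f (T^[n] ω) : ℝ) : ℂ)]
  have hgI : Integrable (fun ω => ‖g ω‖ ^ 2) P := by
    refine Integrable.of_bound (hgm.norm.pow_const 2).aestronglyMeasurable 4
      (Eventually.of_forall fun ω => ?_)
    rw [Real.norm_eq_abs, abs_of_nonneg (by positivity)]
    nlinarith [hE.bd ω, norm_nonneg (g ω)]
  have hdm : ∀ N, Measurable fun ω => A N ω - g ω := fun N => (hAm N).sub hgm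
  have hdb : ∀ N ω, ‖A N ω - g ω‖ ≤ 4 := fun N ω =>
    (norm_sub_le _ _).trans (by linarith [hAb N ω, hE.bd ω])
  have hdI : ∀ N, Integrable (fun ω => ‖A N ω - g ω‖ ^ 2) P := by
    intro N
    refine Integrable.of_bound ((hdm N).norm.pow_const 2).aestronglyMeasurable 16
      (Eventually.of_forall fun ω => ?_)
    rw [Real.norm_eq_abs, abs_of_nonneg (by positivity)]
    nlinarith [hdb N ω, norm_nonneg (A N ω - g ω)]
  have hkey : ∀ (ε : ℝ), 0 < ε → ∀ N : ℕ, ∫ ω, ‖g ω‖ ^ 2 ∂P ≤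
      ε + (1 / ε) * ∫ ω, ‖A N ω - g ω‖ ^ 2 ∂P := by
    intro ε hε N
    have h1 : ((∫ ω, ‖g ω‖ ^ 2 ∂P : ℝ) : ℂ) = ∫ ω, (starRingEnd ℂ) (g ω) * g ω ∂P := by
      rw [← integral_complex_ofReal]
      refine integral_congr_ae (Eventually.of_forall fun ω => ?_)
      show ((‖g ω‖ ^ 2 : ℝ) : ℂ) = (starRingEnd ℂ) (g ω) * g ω
      rw [← Complex.normSq_eq_norm_sq, Complex.normSq_eq_conj_mul_self]
    have i1 : Integrable (fun ω => (starRingEnd ℂ) (g ω) * g ω) P := by
      refine bdI _ 4 (hcm.mul hgm) fun ω => ?_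
      rw [norm_mul]
      nlinarith [hcn ω, hE.bd ω, norm_nonneg ((starRingEnd ℂ) (g ω)), norm_nonneg (g ω)]
    have i2 : Integrable (fun ω => (starRingEnd ℂ) (g ω) * A N ω) P := by
      refine bdI _ 4 (hcm.mul (hAm N)) fun ω => ?_
      rw [norm_mul]
      nlinarith [hcn ω, hAb N ω, norm_nonneg ((starRingEnd ℂ) (g ω)), norm_nonneg (A N ω)]
    have h2 : ∫ ω, (starRingEnd ℂ) (g ω) * g ω ∂P =
        -∫ ω, (starRingEnd ℂ) (g ω) * (A N ω - g ω) ∂P := by
      have h3 : ∫ ω, (starRingEnd ℂ) (g ω) * (A N ω - g ω) ∂P =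
          ∫ ω, (starRingEnd ℂ) (g ω) * A N ω ∂P - ∫ ω, (starRingEnd ℂ) (g ω) * g ω ∂P := by
        rw [← integral_sub i2 i1]
        refine integral_congr_ae (Eventually.of_forall fun ω => ?_)
        show (starRingEnd ℂ) (g ω) * (A N ω - g ω) = _
        ring
      rw [h3, hAg N]
      ring
    have h4 : ∫ ω, ‖g ω‖ ^ 2 ∂P = ‖((∫ ω, ‖g ω‖ ^ 2 ∂P : ℝ) : ℂ)‖ := by
      rw [Complex.norm_real, Real.norm_eq_abs, abs_of_nonneg]
      exact integral_nonneg fun ω => by positivity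
    rw [h4, h1, h2, norm_neg]
    refine (norm_integral_le_integral_norm _).trans ?_
    have h5 : ∫ ω, (ε + (1 / ε) * ‖A N ω - g ω‖ ^ 2) ∂P =
        ε + (1 / ε) * ∫ ω, ‖A N ω - g ω‖ ^ 2 ∂P := by
      rw [integral_add (integrable_const _) ((hdI N).const_mul _), integral_const_mul]
      simp
    rw [← h5]
    refine integral_mono_of_nonneg (Eventually.of_forall fun ω => norm_nonneg _)
      ((integrable_const _).add ((hdI N).const_mul _)) (Eventually.of_forall fun ω => ?_)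
    show ‖(starRingEnd ℂ) (g ω) * (A N ω - g ω)‖ ≤ ε + (1 / ε) * ‖A N ω - g ω‖ ^ 2
    rw [norm_mul]
    have h6 : ‖(starRingEnd ℂ) (g ω)‖ * ‖A N ω - g ω‖ ≤ 2 * ‖A N ω - g ω‖ :=
      mul_le_mul_of_nonneg_right (hcn ω) (norm_nonneg _)
    refine h6.trans ?_
    have h7 : 0 ≤ (ε - ‖A N ω - g ω‖) ^ 2 / ε := by positivity
    have h8 : (ε - ‖A N ω - g ω‖) ^ 2 / ε =
        ε + (1 / ε) * ‖A N ω - g ω‖ ^ 2 - 2 * ‖A N ω - g ω‖ := by
      field_simp
      ring
    linarith
  have hle : ∀ ε : ℝ, 0 < ε → ∫ ω, ‖g ω‖ ^ 2 ∂P ≤ ε := by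
    intro ε hε
    have h1 : Tendsto (fun N => ε + (1 / ε) * ∫ ω, ‖A N ω - g ω‖ ^ 2 ∂P) atTop (𝓝 (ε + (1 / ε) * 0)) :=
      (hE.lim.const_mul _).const_add _
    rw [mul_zero, add_zero] at h1
    exact ge_of_tendsto' h1 (hkey ε hε)
  have h0 : ∫ ω, ‖g ω‖ ^ 2 ∂P = 0 :=
    le_antisymm (le_of_forall_pos_le_add fun ε hε => by rw [zero_add]; exact hle ε hε)
      (integral_nonneg fun ω => by positivity)
  rw [integral_eq_zero_iff_of_nonneg (fun ω => by positivity) hgI] at h0
  filter_upwards [h0] with ω hω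
  have h9 : ‖g ω‖ ^ 2 = 0 := hω
  exact norm_eq_zero.mp (pow_eq_zero_iff two_ne_zero |>.mp h9)

end Pool.Agent.H48.X
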