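import Pool.Agent.H83.X.T2

/-!
Theorem X, row EIG: projections to eigenfunctions (mean ergodic theorem).
-/

set_option autoImplicit false

open MeasureTheory ProbabilityTheory Filter Topology Finset
open scoped Nat ENNReal

namespace Pool.Agent.H48.X

open Pool.Agent.H83.X
open Pool.Agent.H24.AG (ee)

theorem ee_norm1 (x : ℝ) : ‖ee x‖ = 1 := by
  unfold ee
  have : (2 * (Real.pi : ℂ) * Complex.I * (x : ℂ)) = ((2 * Real.pi * x : ℝ) : ℂ) * Complex.I := by
    push_cast; ring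
  rw [this, Complex.norm_exp_ofReal_mul_I]

theorem ee_nat_mul (x : ℝ) (n : ℕ) : ee (-(n * x)) = ee (-x) ^ n := by
  induction n with
  | zero => rw [Nat.cast_zero, zero_mul, neg_zero, ee_zero, pow_zero]
  | succ n ih =>
    rw [pow_succ, ← ih, ← ee_add]
    congr 1
    push_cast; ring

section Twist

variable {Ω : Type} [MeasurableSpace Ω] {P : Measure Ω} [IsProbabilityMeasure P]

theorem tw_memLp {T : Ω → Ω} (hT : MeasurePreserving T P P) {q : Ω → ℂ} (hq : Measurable q)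
    (h1 : ∀ ω, ‖q ω‖ = 1) (ψ : Lp ℂ 2 P) : MemLp (fun ω => q ω * ψ (T ω)) 2 P := by
  have h2 : MemLp (fun ω => ψ (T ω)) 2 P := (Lp.memLp ψ).comp_measurePreserving hT
  refine h2.of_le (hq.aestronglyMeasurable.mul h2.1) (Eventually.of_forall fun ω => ?_)
  rw [norm_mul, h1, one_mul]

/-- composition with `T` and multiplication by `q` -/
noncomputable def tw {T : Ω → Ω} (hT : MeasurePreserving T P P) {q : Ω → ℂ} (hq : Measurable q)
    (h1 : ∀ ω, ‖q ω‖ = 1) : Lp ℂ 2 P →L[ℂ] Lp ℂ 2 P :=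
  LinearMap.mkContinuous
    { toFun := fun ψ => (tw_memLp hT hq h1 ψ).toLp _
      map_add' := by
        intro a b
        apply Lp.ext
        filter_upwards [(tw_memLp hT hq h1 (a + b)).coeFn_toLp,
          (tw_memLp hT hq h1 a).coeFn_toLp, (tw_memLp hT hq h1 b).coeFn_toLp,
          Lp.coeFn_add ((tw_memLp hT hq h1 a).toLp _) ((tw_memLp hT hq h1 b).toLp _),
          hT.quasiMeasurePreserving.ae (Lp.coeFn_add a b)] with ω e1 e2 e3 e4 e5
        rw [e1, e4, Pi.add_apply, e2, e3, e5, Pi.add_apply, mul_add]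
      map_smul' := by
        intro c a
        apply Lp.ext
        filter_upwards [(tw_memLp hT hq h1 (c • a)).coeFn_toLp,
          (tw_memLp hT hq h1 a).coeFn_toLp,
          Lp.coeFn_smul c ((tw_memLp hT hq h1 a).toLp _),
          hT.quasiMeasurePreserving.ae (Lp.coeFn_smul c a)] with ω e1 e2 e4 e5
        rw [e1, RingHom.id_apply, e4, Pi.smul_apply, e2, e5, Pi.smul_apply, smul_eq_mul,
          smul_eq_mul]
        ring } 1 (by
    intro ψ
    rw [one_mul]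
    show ‖(tw_memLp hT hq h1 ψ).toLp _‖ ≤ ‖ψ‖
    rw [Lp.norm_toLp, Lp.norm_def]
    refine ENNReal.toReal_mono (by finiteness) ?_
    rw [← eLpNorm_comp_measurePreserving (Lp.aestronglyMeasurable ψ) hT]
    refine eLpNorm_mono_ae (Eventually.of_forall fun ω => ?_)
    rw [norm_mul, h1, one_mul]
    exact le_rfl)

theorem tw_norm {T : Ω → Ω} (hT : MeasurePreserving T P P) {q : Ω → ℂ} (hq : Measurable q)
    (h1 : ∀ ω, ‖q ω‖ = 1) : ‖tw hT hq h1‖ ≤ 1 :=
  LinearMap.mkContinuous_norm_le _ zero_le_one _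

theorem tw_coe {T : Ω → Ω} (hT : MeasurePreserving T P P) {q : Ω → ℂ} (hq : Measurable q)
    (h1 : ∀ ω, ‖q ω‖ = 1) (ψ : Lp ℂ 2 P) :
    tw hT hq h1 ψ =ᵐ[P] fun ω => q ω * ψ (T ω) :=
  (tw_memLp hT hq h1 ψ).coeFn_toLp

theorem l2_sq (f : Lp ℂ 2 P) : ∫ ω, ‖f ω‖ ^ 2 ∂P = ‖f‖ ^ 2 := by
  have h := L2.inner_def (𝕜 := ℂ) f f
  rw [inner_self_eq_norm_sq_to_K] at h
  have h2 : ∫ a, inner ℂ (f a) (f a) ∂P = ∫ a, ((‖f a‖ ^ 2 : ℝ) : ℂ) ∂P := by
    refine integral_congr_ae (Eventually.of_forall fun a => ?_)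
    show inner ℂ (f a) (f a) = _
    rw [inner_self_eq_norm_sq_to_K]
    push_cast
    rfl
  rw [h2, integral_complex_ofReal] at h
  have h3 : ((‖f‖ ^ 2 : ℝ) : ℂ) = ((∫ ω, ‖f ω‖ ^ 2 ∂P : ℝ) : ℂ) := by
    rw [← h]; push_cast; rfl
  exact (Complex.ofReal_injective h3).symm


theorem tw_iter0 {T : Ω → Ω} (hT : MeasurePreserving T P P) {q : Ω → ℂ} (hq : Measurable q)
    (h1 : ∀ ω, ‖q ω‖ = 1) (c : ℂ) (hc : ∀ ω, q ω = c) (F : Lp ℂ 2 P) (j : ℕ) :
    ((tw hT hq h1)^[j] F : Lp ℂ 2 P) =ᵐ[P] fun ω => c ^ j * F (T^[j] ω) := by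
  induction j with
  | zero =>
    refine Eventually.of_forall fun ω => ?_
    simp
  | succ j ih =>
    rw [Function.iterate_succ_apply']
    filter_upwards [tw_coe hT hq h1 ((tw hT hq h1)^[j] F),
      hT.quasiMeasurePreserving.ae ih] with ω e1 e2
    rw [e1, e2, hc, pow_succ, ← Function.iterate_succ_apply]
    ring

end Twist

theorem pf_EIG : T_EIG := by
  classical
  intro Ω _ P _ T f θ hT hf hfb
  set c : ℂ := ee (-θ) with hc
  set q : Ω → ℂ := fun _ => c with hq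
  have hqm : Measurable q := measurable_const
  have h1 : ∀ ω, ‖q ω‖ = 1 := fun ω => ee_norm1 _
  have hfm : Measurable fun ω => (f ω : ℂ) := Complex.measurable_ofReal.comp hf
  have hfn : ∀ ω, ‖(f ω : ℂ)‖ ≤ 2 := fun ω => by
    rw [Complex.norm_real]; exact hfb ω
  have hfL : MemLp (fun ω => (f ω : ℂ)) 2 P :=
    MemLp.of_bound hfm.aestronglyMeasurable 2 (Eventually.of_forall hfn)
  set F : Lp ℂ 2 P := hfL.toLp _ with hF
  have hFf : F =ᵐ[P] fun ω => (f ω : ℂ) := hfL.coeFn_toLp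
  set A : ℕ → Ω → ℂ := fun N ω => (∑ n ∈ range N, ee (-(n * θ)) * (f (T^[n] ω) : ℂ)) / N with hA
  have hAb : ∀ N ω, ‖A N ω‖ ≤ 2 := by
    intro N ω
    show ‖(∑ n ∈ range N, ee (-(n * θ)) * (f (T^[n] ω) : ℂ)) / N‖ ≤ 2
    rw [norm_div, Complex.norm_natCast]
    rcases Nat.eq_zero_or_pos N with h | h
    · rw [h]; simp
    · rw [div_le_iff₀ (by exact_mod_cast h)]
      refine (norm_sum_le _ _).trans ?_
      calc ∑ n ∈ range N, ‖ee (-(n * θ)) * (f (T^[n] ω) : ℂ)‖ ≤ ∑ _n ∈ range N, (2 : ℝ) := by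
            refine Finset.sum_le_sum fun n _ => ?_
            rw [norm_mul, ee_norm1, one_mul]
            exact hfn _
        _ = 2 * N := by rw [Finset.sum_const, card_range, nsmul_eq_mul]; ring
  have hbk : ∀ K : ℕ, (birkhoffAverage ℂ (tw hT hqm h1) _root_.id K F : Lp ℂ 2 P) =ᵐ[P] A K := by
    intro K
    unfold birkhoffAverage birkhoffSum
    have h3 : ∀ᵐ ω ∂P, ∀ k : ℕ, ((tw hT hqm h1)^[k] F : Lp ℂ 2 P) ω = c ^ k * F (T^[k] ω) := by
      rw [ae_all_iff]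
      intro k
      exact tw_iter0 hT hqm h1 c (fun _ => rfl) F k
    have h4 : ∀ᵐ ω ∂P, ∀ k : ℕ, F (T^[k] ω) = (f (T^[k] ω) : ℂ) := by
      rw [ae_all_iff]
      intro k
      exact (hT.iterate k).quasiMeasurePreserving.ae hFf
    filter_upwards [Lp.coeFn_smul ((K : ℂ)⁻¹) (∑ k ∈ range K, _root_.id ((tw hT hqm h1)^[k] F)),
      Lp.coeFn_finsetSum (range K) (fun k => _root_.id ((tw hT hqm h1)^[k] F)), h3, h4] with ω e1 e2 e3 e4
    rw [e1, Pi.smul_apply, e2, Finset.sum_apply, smul_eq_mul]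
    show (K : ℂ)⁻¹ * ∑ k ∈ range K, ((tw hT hqm h1)^[k] F : Lp ℂ 2 P) ω =
      (∑ n ∈ range K, ee (-(n * θ)) * (f (T^[n] ω) : ℂ)) / K
    rw [Finset.sum_congr rfl fun k _ => e3 k, div_eq_inv_mul]
    congr 1
    refine Finset.sum_congr rfl fun k _ => ?_
    rw [e4 k, ee_nat_mul]
  have ht := (tw hT hqm h1).tendsto_birkhoffAverage_orthogonalProjection (tw_norm hT hqm h1) F
  set S := (tw hT hqm h1).eqLocus (1 : Lp ℂ 2 P →L[ℂ] Lp ℂ 2 P) with hS
  set M : Lp ℂ 2 P := (S.orthogonalProjectionOnto F).1 with hM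
  have hMS : M ∈ S := (S.orthogonalProjectionOnto F).2
  have hMM : tw hT hqm h1 M = M := hMS
  have hlim : Tendsto (fun K => ∫ ω, ‖A K ω - M ω‖ ^ 2 ∂P) atTop (𝓝 0) := by
    have e : ∀ K : ℕ, ∫ ω, ‖A K ω - M ω‖ ^ 2 ∂P =
        ‖birkhoffAverage ℂ (tw hT hqm h1) _root_.id K F - M‖ ^ 2 := by
      intro K
      rw [← l2_sq]
      refine integral_congr_ae ?_
      filter_upwards [hbk K, Lp.coeFn_sub
        (birkhoffAverage ℂ (tw hT hqm h1) _root_.id K F) M] with ω e1 e2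
      rw [e2, Pi.sub_apply, e1]
    simp_rw [e]
    have h4 := (tendsto_iff_norm_sub_tendsto_zero.1 ht).pow 2
    rw [zero_pow two_ne_zero] at h4
    exact h4
  have hMm : Measurable M := (Lp.stronglyMeasurable M).measurable
  have hMb : ∀ᵐ ω ∂P, ‖M ω‖ ≤ 2 := by
    set g : Ω → ℝ := fun ω => (max (‖M ω‖ - 2) 0) ^ 2 with hg
    have hi : Integrable (fun ω => ‖M ω‖ ^ 2) P := (Lp.memLp M).integrable_norm_pow two_ne_zero
    have hgm : Measurable g := by fun_prop
    have hgi : Integrable g P := by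
      refine hi.mono' hgm.aestronglyMeasurable (Eventually.of_forall fun ω => ?_)
      rw [Real.norm_eq_abs, abs_of_nonneg (sq_nonneg _)]
      refine pow_le_pow_left₀ (le_max_right _ _) (max_le ?_ (norm_nonneg _)) 2
      linarith
    have hdi : ∀ K, Integrable (fun ω => ‖A K ω - M ω‖ ^ 2) P := by
      intro K
      have h5 := (Lp.memLp (birkhoffAverage ℂ (tw hT hqm h1) _root_.id K F
        - M)).integrable_norm_pow two_ne_zero
      refine h5.congr ?_
      filter_upwards [hbk K, Lp.coeFn_sub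
        (birkhoffAverage ℂ (tw hT hqm h1) _root_.id K F) M] with ω e1 e2
      rw [e2, Pi.sub_apply, e1]
    have hle : ∀ K, ∫ ω, g ω ∂P ≤ ∫ ω, ‖A K ω - M ω‖ ^ 2 ∂P := by
      intro K
      refine integral_mono hgi (hdi K) fun ω => ?_
      refine pow_le_pow_left₀ (le_max_right _ _) (max_le ?_ (norm_nonneg _)) 2
      have a1 := hAb K ω
      have a2 : ‖M ω‖ - ‖A K ω‖ ≤ ‖A K ω - M ω‖ := by
        rw [norm_sub_rev]
        exact norm_sub_norm_le _ _
      linarith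
    have h0 : ∫ ω, g ω ∂P = 0 :=
      le_antisymm (ge_of_tendsto' hlim hle) (integral_nonneg fun ω => sq_nonneg _)
    rw [integral_eq_zero_iff_of_nonneg (fun ω => sq_nonneg _) hgi] at h0
    filter_upwards [h0] with ω hω
    have h6 : max (‖M ω‖ - 2) 0 = 0 := by
      have : (max (‖M ω‖ - 2) 0) ^ 2 = 0 := hω
      exact pow_eq_zero_iff two_ne_zero |>.1 this
    have h7 := le_max_left (‖M ω‖ - 2) 0
    linarith
  have hMe : ∀ᵐ ω ∂P, M (T ω) = ee θ * M ω := by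
    have h8 := tw_coe hT hqm h1 M
    rw [hMM] at h8
    filter_upwards [h8] with ω hω
    have h9 : M ω = c * M (T ω) := hω
    have h10 : ee θ * c = 1 := by
      rw [hc, ← ee_add, add_neg_cancel, ee_zero]
    rw [h9, ← mul_assoc, h10, one_mul]
  set g : Ω → ℂ := fun ω => if ‖M ω‖ ≤ 2 then M ω else 0 with hg
  have hgm : Measurable g :=
    Measurable.ite (measurableSet_le hMm.norm measurable_const) hMm measurable_const
  have hgM : ∀ᵐ ω ∂P, g ω = M ω := by
    filter_upwards [hMb] with ω hω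
    show (if ‖M ω‖ ≤ 2 then M ω else 0) = M ω
    rw [if_pos hω]
  refine ⟨g, hgm, fun ω => ?_, ?_, ?_⟩
  · show ‖if ‖M ω‖ ≤ 2 then M ω else 0‖ ≤ 2
    split_ifs with h
    · exact h
    · simp
  · filter_upwards [hMe, hgM, hT.quasiMeasurePreserving.ae hgM] with ω e1 e2 e3
    rw [e3, e2, e1]
  · refine hlim.congr fun K => ?_
    refine integral_congr_ae ?_
    filter_upwards [hgM] with ω e
    show ‖A K ω - M ω‖ ^ 2 = ‖A K ω - g ω‖ ^ 2
    rw [e]

end Pool.Agent.H48.X
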