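import Pool.Agent.H83.X.T2

/-!
Theorem X, row FOL: kernels with coefficients near one at given frequencies.
-/

set_option autoImplicit false

open MeasureTheory ProbabilityTheory Filter Topology Finset
open scoped Nat ENNReal

namespace Pool.Agent.H48.X

open Pool.Agent.H83.X
open Pool.Agent.H24.AG (ee)

theorem ee_fract_mul (n : ℕ) (x : ℝ) : ee (n * Int.fract x) = ee (n * x) := by
  have h : (n : ℝ) * x = n * Int.fract x + ((n * ⌊x⌋ : ℤ) : ℝ) := by
    have := Int.floor_add_fract x
    push_cast
    nlinarith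
  rw [h]
  unfold ee
  rw [show (2 * (Real.pi : ℂ) * Complex.I * ((n * Int.fract x + ((n * ⌊x⌋ : ℤ) : ℝ) : ℝ) : ℂ)) =
    2 * Real.pi * Complex.I * ((n * Int.fract x : ℝ) : ℂ) + ((n * ⌊x⌋ : ℤ) : ℂ) * (2 * Real.pi * Complex.I) by
      push_cast; ring]
  rw [Complex.exp_add, Complex.exp_int_mul_two_pi_mul_I, mul_one]

theorem ee_neg_conj (x : ℝ) : ee (-x) = (starRingEnd ℂ) (ee x) := by
  unfold ee
  rw [← Complex.exp_conj]
  congr 1
  simp only [map_mul, Complex.conj_I, Complex.conj_ofReal, map_ofNat]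
  push_cast
  ring

theorem fract_add_fract (x y : ℝ) : Int.fract (Int.fract x + y) = Int.fract (x + y) := by
  have h : Int.fract x + y = (x + y) - ((⌊x⌋ : ℤ) : ℝ) := by
    rw [Int.fract]; ring
  rw [h, Int.fract_sub_intCast]

open Classical in
/-- the fractional parts of the integral combinations with coefficients up to `N` -/
noncomputable def AN (S : Finset ℝ) (N : ℕ) : Finset ℝ :=
  (Fintype.piFinset fun _ : S => Finset.Icc (-(N : ℤ)) N).image
    (fun m => Int.fract (∑ β : S, (m β : ℝ) * (β : ℝ)))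

theorem AN_range (S : Finset ℝ) (N : ℕ) (x : ℝ) (hx : x ∈ AN S N) : 0 ≤ x ∧ x < 1 := by
  classical
  unfold AN at hx
  obtain ⟨m, -, rfl⟩ := Finset.mem_image.mp hx
  exact ⟨Int.fract_nonneg _, Int.fract_lt_one _⟩

theorem AN_zero (S : Finset ℝ) (N : ℕ) : (0 : ℝ) ∈ AN S N := by
  classical
  unfold AN
  refine Finset.mem_image.mpr ⟨fun _ => 0, ?_, by simp⟩
  rw [Fintype.mem_piFinset]
  intro a
  simp

theorem AN_card (S : Finset ℝ) (N : ℕ) : (AN S N).card ≤ (2 * N + 1) ^ S.card := by
  classical
  unfold AN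
  refine Finset.card_image_le.trans ?_
  rw [Fintype.card_piFinset]
  have : (Finset.Icc (-(N : ℤ)) N).card = 2 * N + 1 := by
    rw [Int.card_Icc]; omega
  rw [Finset.prod_congr rfl fun _ _ => this]
  simp

theorem AN_mono (S : Finset ℝ) (N : ℕ) : AN S N ⊆ AN S (N + 1) := by
  classical
  unfold AN
  apply Finset.image_subset_image
  apply Fintype.piFinset_subset
  intro a x hx
  rw [Finset.mem_Icc] at hx ⊢
  push_cast
  omega

theorem AN_add (S : Finset ℝ) (N : ℕ) (β : ℝ) (hβ : β ∈ S) (x : ℝ) (hx : x ∈ AN S N) :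
    Int.fract (x + β) ∈ AN S (N + 1) := by
  classical
  unfold AN at hx ⊢
  obtain ⟨m, hm, rfl⟩ := Finset.mem_image.mp hx
  rw [Fintype.mem_piFinset] at hm
  refine Finset.mem_image.mpr ⟨fun γ => m γ + (if γ = ⟨β, hβ⟩ then 1 else 0), ?_, ?_⟩
  · rw [Fintype.mem_piFinset]
    intro a
    have := Finset.mem_Icc.mp (hm a)
    rw [Finset.mem_Icc]
    push_cast
    split_ifs <;> omega
  · rw [fract_add_fract]
    congr 1
    have : ∀ γ : S, ((m γ + (if γ = (⟨β, hβ⟩ : S) then 1 else 0) : ℤ) : ℝ) * (γ : ℝ) =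
        (m γ : ℝ) * (γ : ℝ) + (if γ = (⟨β, hβ⟩ : S) then β else 0) := by
      intro γ
      split_ifs with h
      · push_cast
        rw [h]; ring
      · push_cast; ring
    rw [Finset.sum_congr rfl fun γ _ => this γ, Finset.sum_add_distrib]
    simp

/-- slow growth at some scale -/
theorem AN_slow (S : Finset ℝ) (η : ℝ) (hη : 0 < η) :
    ∃ N, ((AN S (N + 1)).card : ℝ) ≤ (1 + η) * (AN S N).card := by
  by_contra hcon
  push Not at hcon
  have h1 : ∀ N, (1 + η) ^ N ≤ ((AN S N).card : ℝ) := by
    intro N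
    induction N with
    | zero =>
      rw [pow_zero]
      exact_mod_cast Finset.card_pos.mpr ⟨0, AN_zero S 0⟩
    | succ N ih =>
      rw [pow_succ]
      have := hcon N
      nlinarith
  have h2 : Tendsto (fun n : ℕ => (n : ℝ) ^ S.card / (1 + η) ^ n) atTop (𝓝 0) :=
    tendsto_pow_const_div_const_pow_of_one_lt S.card (by linarith)
  have h3 : (0 : ℝ) < 1 / 3 ^ S.card := by positivity
  obtain ⟨n, hn1, hn2⟩ := ((h2.eventually (gt_mem_nhds h3)).and (eventually_ge_atTop 1)).exists
  have h4 : ((AN S n).card : ℝ) ≤ (3 * n) ^ S.card := by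
    have h5 : ((AN S n).card : ℝ) ≤ ((2 * n + 1 : ℕ) : ℝ) ^ S.card := by
      exact_mod_cast AN_card S n
    refine h5.trans (pow_le_pow_left₀ (by positivity) ?_ _)
    push_cast
    have : (1 : ℝ) ≤ n := by exact_mod_cast hn2
    linarith
  have h6 := (h1 n).trans h4
  rw [div_lt_div_iff₀ (by positivity) (by positivity), one_mul, mul_comm, ← mul_pow] at hn1
  linarith

theorem pf_FOL : T_FOL := by
  classical
  intro S η hη
  obtain ⟨N, hN⟩ := AN_slow S (min η (1 / 2)) (by positivity)
  set E := AN S N with hE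
  have hE0 : 0 < E.card := Finset.card_pos.mpr ⟨0, AN_zero S N⟩
  have hE0' : (0 : ℝ) < E.card := by exact_mod_cast hE0
  set k : ℝ → ℝ := fun g => (((E ×ˢ E).filter fun q => Int.fract (q.1 - q.2) = g).card : ℝ) / E.card
    with hk
  have hinj : ∀ a ∈ E, ∀ b ∈ E, ∀ c : ℝ, Int.fract (a + c) = Int.fract (b + c) → a = b := by
    intro a ha b hb c h
    obtain ⟨z, hz⟩ := Int.fract_eq_fract.mp h
    have h1 := AN_range S N a ha
    have h2 := AN_range S N b hb
    have h3 : a - b = z := by linarith
    have h4 : (z : ℝ) < 1 := by linarith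
    have h5 : (-1 : ℝ) < z := by linarith
    have h6 : z < 1 := by exact_mod_cast h4
    have h7 : -1 < z := by exact_mod_cast h5
    have h8 : z = 0 := by omega
    rw [h8] at h3
    push_cast at h3
    linarith
  refine ⟨(E ×ˢ E).image fun q => Int.fract (q.1 - q.2), k, ?_, ?_, ?_, ?_, ?_, ?_⟩
  · intro γ hγ
    obtain ⟨q, -, rfl⟩ := Finset.mem_image.mp hγ
    exact ⟨Int.fract_nonneg _, Int.fract_lt_one _⟩
  · exact Finset.mem_image.mpr ⟨(0, 0), Finset.mem_product.mpr ⟨AN_zero S N, AN_zero S N⟩, by simp⟩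
  · -- `k 0 = 1`
    have : ((E ×ˢ E).filter fun q => Int.fract (q.1 - q.2) = 0) = E.image fun a => (a, a) := by
      ext ⟨a, b⟩
      rw [Finset.mem_filter, Finset.mem_product, Finset.mem_image]
      constructor
      · rintro ⟨⟨ha, hb⟩, h⟩
        refine ⟨a, ha, ?_⟩
        have : a = b := by
          apply hinj a ha b hb (-b)
          rw [← sub_eq_add_neg, ← sub_eq_add_neg, sub_self, Int.fract_zero]
          exact h
        rw [this]
      · rintro ⟨c, hc, h⟩
        obtain ⟨rfl, rfl⟩ := Prod.mk.inj h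
        exact ⟨⟨hc, hc⟩, by simp⟩
    show (((E ×ˢ E).filter fun q => Int.fract (q.1 - q.2) = 0).card : ℝ) / E.card = 1
    rw [this, Finset.card_image_of_injective _ (fun a b h => (Prod.mk.inj h).1), div_self hE0'.ne']
  · intro γ _
    refine ⟨by positivity, ?_⟩
    show (((E ×ˢ E).filter fun q => Int.fract (q.1 - q.2) = γ).card : ℝ) / E.card ≤ 1
    rw [div_le_one hE0']
    have : ((E ×ˢ E).filter fun q => Int.fract (q.1 - q.2) = γ).card ≤ E.card := by
      apply Finset.card_le_card_of_injOn (fun q => q.2)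
      · intro q hq
        exact (Finset.mem_product.mp (Finset.mem_filter.mp hq).1).2
      · intro q hq q' hq' h
        have h1 := Finset.mem_filter.mp hq
        have h2 := Finset.mem_filter.mp hq'
        have h3 := Finset.mem_product.mp h1.1
        have h4 := Finset.mem_product.mp h2.1
        have h5 : q.2 = q'.2 := h
        have h6 : q.1 = q'.1 := by
          apply hinj _ h3.1 _ h4.1 (-q.2)
          rw [← sub_eq_add_neg, ← sub_eq_add_neg, h1.2]
          rw [h5, h2.2]
        exact Prod.ext h6 h5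
    exact_mod_cast this
  · intro β hβ
    -- the set of `a` with `fract (a + β) ∈ E`
    set G := E.filter fun a => Int.fract (a + β) ∈ E with hG
    have hGc : 2 * (E.card : ℝ) - (AN S (N + 1)).card ≤ G.card := by
      have h1 : (E.image fun a => Int.fract (a + β)).card = E.card :=
        Finset.card_image_of_injOn fun a ha b hb h => hinj a ha b hb β h
      have h2 : (E.image fun a => Int.fract (a + β)) ∪ E ⊆ AN S (N + 1) := by
        apply Finset.union_subset _ (AN_mono S N)
        intro x hx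
        obtain ⟨a, ha, rfl⟩ := Finset.mem_image.mp hx
        exact AN_add S N β hβ a ha
      have h3 := Finset.card_union_add_card_inter (E.image fun a => Int.fract (a + β)) E
      have h4 : ((E.image fun a => Int.fract (a + β)) ∩ E).card ≤ G.card := by
        have : (E.image fun a => Int.fract (a + β)) ∩ E ⊆ G.image fun a => Int.fract (a + β) := by
          intro x hx
          obtain ⟨hx1, hx2⟩ := Finset.mem_inter.mp hx
          obtain ⟨a, ha, rfl⟩ := Finset.mem_image.mp hx1
          exact Finset.mem_image.mpr ⟨a, Finset.mem_filter.mpr ⟨ha, hx2⟩, rfl⟩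
        exact (Finset.card_le_card this).trans Finset.card_image_le
      have h5 := Finset.card_le_card h2
      have h6 : 2 * E.card ≤ G.card + (AN S (N + 1)).card := by omega
      have h7 : (2 * (E.card : ℝ)) ≤ G.card + (AN S (N + 1)).card := by exact_mod_cast h6
      linarith
    have hGk : (G.card : ℝ) ≤ ((E ×ˢ E).filter fun q => Int.fract (q.1 - q.2) = Int.fract β).card := by
      have : G.card ≤ ((E ×ˢ E).filter fun q => Int.fract (q.1 - q.2) = Int.fract β).card := by
        apply Finset.card_le_card_of_injOn (fun a => (Int.fract (a + β), a))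
        · intro a ha
          have h1 := Finset.mem_filter.mp ha
          refine Finset.mem_coe.mpr (Finset.mem_filter.mpr ⟨Finset.mem_product.mpr ⟨h1.2, h1.1⟩, ?_⟩)
          show Int.fract (Int.fract (a + β) - a) = Int.fract β
          rw [sub_eq_add_neg, fract_add_fract]
          congr 1
          ring
        · intro a _ b _ h
          exact (Prod.mk.inj h).2
      exact_mod_cast this
    have hmin1 : min η (1 / 2) ≤ η := min_le_left _ _
    have hmin2 : min η (1 / 2) ≤ 1 / 2 := min_le_right _ _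
    have hlow : (1 - min η (1 / 2)) * E.card ≤ G.card := by nlinarith
    refine ⟨?_, ?_⟩
    · have hpos : (0 : ℝ) < G.card := by
        have : (0 : ℝ) < (1 - min η (1 / 2)) * E.card := mul_pos (by linarith) hE0'
        linarith
      have hpos' : 0 < G.card := by exact_mod_cast hpos
      obtain ⟨a, ha⟩ := Finset.card_pos.mp hpos'
      have h1 := Finset.mem_filter.mp ha
      refine Finset.mem_image.mpr ⟨(Int.fract (a + β), a), Finset.mem_product.mpr ⟨h1.2, h1.1⟩, ?_⟩
      show Int.fract (Int.fract (a + β) - a) = Int.fract β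
      rw [sub_eq_add_neg, fract_add_fract]
      congr 1
      ring
    · show 1 - η ≤ (((E ×ˢ E).filter fun q => Int.fract (q.1 - q.2) = Int.fract β).card : ℝ) / E.card
      rw [le_div_iff₀ hE0']
      have : (1 - η) * E.card ≤ (1 - min η (1 / 2)) * E.card :=
        mul_le_mul_of_nonneg_right (by linarith) hE0'.le
      linarith
  · intro n
    set w : ℂ := ∑ a ∈ E, ee (n * a) with hw
    refine ⟨Complex.normSq w / E.card, by positivity [Complex.normSq_nonneg w], ?_⟩
    have h1 : ∀ q ∈ E ×ˢ E, Int.fract (q.1 - q.2) ∈ (E ×ˢ E).image fun q => Int.fract (q.1 - q.2) :=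
      fun q hq => Finset.mem_image_of_mem _ hq
    have h2 : ∑ q ∈ E ×ˢ E, ee (n * Int.fract (q.1 - q.2)) =
        ∑ γ ∈ (E ×ˢ E).image (fun q => Int.fract (q.1 - q.2)),
          (((E ×ˢ E).filter fun q => Int.fract (q.1 - q.2) = γ).card : ℂ) * ee (n * γ) := by
      rw [← Finset.sum_fiberwise_of_maps_to h1]
      refine Finset.sum_congr rfl fun γ _ => ?_
      rw [Finset.sum_congr rfl fun q hq => by rw [(Finset.mem_filter.mp hq).2]]
      rw [Finset.sum_const, nsmul_eq_mul]
    have h3 : ∑ q ∈ E ×ˢ E, ee (n * Int.fract (q.1 - q.2)) = (Complex.normSq w : ℂ) := by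
      rw [Complex.normSq_eq_conj_mul_self, hw, map_sum, Finset.sum_mul_sum, Finset.sum_product_right]
      refine Finset.sum_congr rfl fun a _ => Finset.sum_congr rfl fun b _ => ?_
      show ee (n * Int.fract (b - a)) = _
      rw [ee_fract_mul, mul_sub, sub_eq_add_neg, ee_add, ee_neg_conj, mul_comm]
    have h4 : ∑ γ ∈ (E ×ˢ E).image (fun q => Int.fract (q.1 - q.2)), (k γ : ℂ) * ee (n * γ) =
        (∑ γ ∈ (E ×ˢ E).image (fun q => Int.fract (q.1 - q.2)),
          (((E ×ˢ E).filter fun q => Int.fract (q.1 - q.2) = γ).card : ℂ) * ee (n * γ)) / E.card := by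
      rw [Finset.sum_div]
      refine Finset.sum_congr rfl fun γ _ => ?_
      show (((((E ×ˢ E).filter fun q => Int.fract (q.1 - q.2) = γ).card : ℝ) / E.card : ℝ) : ℂ) * _ = _
      push_cast
      ring
    rw [h4, ← h2, h3]
    push_cast
    rfl

end Pool.Agent.H48.X
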