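import Pool.Agent.H83.X.T3

/-!
Theorem X, row XLN: a convex function is, up to a small error, a maximum of lines.
-/

set_option autoImplicit false

open MeasureTheory ProbabilityTheory Filter Topology Finset
open scoped Nat ENNReal

namespace Pool.Agent.H48.X

open Pool.Agent.H83.X

/-- supporting lines with slopes bounded on `[-1, 1]` -/
theorem support_line (Φ : ℝ → ℝ) (hΦ : ConvexOn ℝ Set.univ Φ) (t : ℝ) (ht : |t| ≤ 1) :
    ∃ a : ℝ, |a| ≤ |Φ 2 - Φ 1| + |Φ (-1) - Φ (-2)| ∧ ∀ s, Φ t + a * (s - t) ≤ Φ s := by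
  -- the left and the right slopes
  have hsl : ∀ x y z : ℝ, x < y → y < z → (Φ y - Φ x) / (y - x) ≤ (Φ z - Φ y) / (z - y) :=
    fun x y z hxy hyz => hΦ.slope_mono_adjacent (Set.mem_univ _) (Set.mem_univ _) hxy hyz
  have htb := abs_le.mp ht
  set L : Set ℝ := {r | ∃ x < t, r = (Φ t - Φ x) / (t - x)} with hL
  have hLne : L.Nonempty := ⟨_, t - 1, by linarith, rfl⟩
  have hLbd : ∀ y, t < y → ∀ r ∈ L, r ≤ (Φ y - Φ t) / (y - t) := by
    rintro y hy r ⟨x, hx, rfl⟩
    exact hsl x t y hx hy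
  have hbdd : BddAbove L := ⟨(Φ (t + 1) - Φ t) / (t + 1 - t), fun r hr => hLbd (t + 1) (by linarith) r hr⟩
  refine ⟨sSup L, ?_, fun s => ?_⟩
  · have hup : sSup L ≤ Φ 2 - Φ 1 := by
      apply csSup_le hLne
      rintro r ⟨x, hx, rfl⟩
      rcases lt_or_eq_of_le htb.2 with h | h
      · have h1 := hsl x t 1 hx h
        have h2 := hsl t 1 2 h (by norm_num)
        norm_num at h2
        linarith
      · rw [h] at hx ⊢
        have h1 := hsl x 1 2 hx (by norm_num)
        norm_num at h1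
        linarith
    have hlow : Φ (-1) - Φ (-2) ≤ sSup L := by
      rcases lt_or_eq_of_le htb.1 with h | h
      · have h1 := hsl (-2) (-1) t (by norm_num) h
        norm_num at h1
        have h2 : (Φ t - Φ (-1)) / (t - -1) ∈ L := ⟨-1, h, rfl⟩
        rw [sub_neg_eq_add] at h2
        linarith [le_csSup hbdd h2]
      · have h2 : (Φ t - Φ (-2)) / (t - -2) ∈ L := ⟨-2, by linarith, rfl⟩
        have h3 := le_csSup hbdd h2
        rw [← h] at h3
        norm_num at h3
        linarith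
    rw [abs_le]
    constructor
    · have := neg_abs_le (Φ (-1) - Φ (-2))
      have := abs_nonneg (Φ 2 - Φ 1)
      linarith
    · have := le_abs_self (Φ 2 - Φ 1)
      have := abs_nonneg (Φ (-1) - Φ (-2))
      linarith
  · rcases lt_trichotomy s t with h | h | h
    · have h1 : (Φ t - Φ s) / (t - s) ≤ sSup L := le_csSup hbdd ⟨s, h, rfl⟩
      rw [div_le_iff₀ (by linarith)] at h1
      nlinarith
    · rw [h]; simp
    · have h1 : sSup L ≤ (Φ s - Φ t) / (s - t) := csSup_le hLne fun r hr => hLbd s h r hr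
      rw [le_div_iff₀ (by linarith)] at h1
      nlinarith

theorem pf_XLN : T_XLN := by
  intro Φ η hΦ hη
  set M : ℝ := |Φ 2 - Φ 1| + |Φ (-1) - Φ (-2)| with hM
  have hM0 : 0 ≤ M := by positivity
  obtain ⟨N, hN⟩ := exists_nat_gt (4 * M / η + 1)
  have hN0 : (0 : ℝ) < N := by
    have : 0 ≤ 4 * M / η := by positivity
    linarith
  -- grid points
  let t : Fin (N + 1) → ℝ := fun l => -1 + 2 * (l : ℝ) / N
  have ht : ∀ l, |t l| ≤ 1 := by
    intro l
    have h1 : (l : ℝ) ≤ N := by exact_mod_cast Nat.lt_succ_iff.mp l.2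
    have h0 : (0 : ℝ) ≤ (l : ℕ) := Nat.cast_nonneg _
    have h2 : 2 * ((l : ℕ) : ℝ) / N ≤ 2 := by
      rw [div_le_iff₀ hN0]; linarith
    have h3 : 0 ≤ 2 * ((l : ℕ) : ℝ) / N := by positivity
    rw [abs_le]
    constructor
    · show -1 ≤ -1 + 2 * ((l : ℕ) : ℝ) / N
      linarith
    · show -1 + 2 * ((l : ℕ) : ℝ) / N ≤ 1
      linarith
  choose a ha1 ha2 using fun l => support_line Φ hΦ (t l) (ht l)
  refine ⟨N + 1, a, fun l => Φ (t l) - a l * t l, ⟨fun l s _ => ?_, fun s hs => ?_⟩⟩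
  · have := ha2 l s
    linarith
  · -- the grid point on the left of `s`
    have hsb := abs_le.mp hs
    obtain ⟨b, hb1, hb2⟩ := support_line Φ hΦ s hs
    have hnn : 0 ≤ (s + 1) * N / 2 := by
      have : 0 ≤ s + 1 := by linarith
      positivity
    have hfl := Nat.floor_le hnn
    have hfl2 := Nat.lt_floor_add_one ((s + 1) * N / 2)
    have hle : ⌊(s + 1) * (N : ℝ) / 2⌋₊ ≤ N := by
      have h5 : (s + 1) * (N : ℝ) / 2 ≤ N := by nlinarith
      exact_mod_cast (Nat.floor_le_floor h5).trans (by rw [Nat.floor_natCast])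
    let l : Fin (N + 1) := ⟨⌊(s + 1) * (N : ℝ) / 2⌋₊, Nat.lt_succ_of_le hle⟩
    refine ⟨l, ?_⟩
    have h1 : t l ≤ s := by
      show -1 + 2 * ((⌊(s + 1) * (N : ℝ) / 2⌋₊ : ℕ) : ℝ) / N ≤ s
      have : 2 * ((⌊(s + 1) * (N : ℝ) / 2⌋₊ : ℕ) : ℝ) / N ≤ s + 1 := by
        rw [div_le_iff₀ hN0]; linarith
      linarith
    have h2 : s - t l ≤ 2 / N := by
      show s - (-1 + 2 * ((⌊(s + 1) * (N : ℝ) / 2⌋₊ : ℕ) : ℝ) / N) ≤ 2 / N
      have : s + 1 ≤ 2 * (((⌊(s + 1) * (N : ℝ) / 2⌋₊ : ℕ) : ℝ) + 1) / N := by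
        rw [le_div_iff₀ hN0]; linarith
      rw [mul_add, add_div, mul_one] at this
      linarith
    have h3 := hb2 (t l)
    have h4 := abs_le.mp (ha1 l)
    have h5 := abs_le.mp hb1
    -- Φ s ≤ Φ (t l) + b (s - t l)
    have h6 : (b - a l) * (s - t l) ≤ 2 * M * (2 / N) := by
      have h7 : b - a l ≤ 2 * M := by linarith
      have h8 : 0 ≤ s - t l := by linarith
      calc (b - a l) * (s - t l) ≤ 2 * M * (s - t l) := mul_le_mul_of_nonneg_right h7 h8
        _ ≤ 2 * M * (2 / N) := mul_le_mul_of_nonneg_left h2 (by positivity)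
    have h9 : 2 * M * (2 / N) ≤ η := by
      have : 4 * M / η ≤ N := by linarith
      rw [div_le_iff₀ hη] at this
      rw [show 2 * M * (2 / (N : ℝ)) = 4 * M / N by ring, div_le_iff₀ hN0]
      linarith
    nlinarith

end Pool.Agent.H48.X
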